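import Mathlib

set_option autoImplicit false

namespace Pool.Agent.Results.MP_270153_nt.FailsAtFive

open Finset

/-- The rising factorial `(a)_k`. -/
def rise (a : ℚ) (k : ℕ) : ℚ := ∏ i ∈ range k, (a + i)

/-- The sum `S_m(N)` of the problem. -/
def S (m N : ℕ) : ℚ :=
  ∑ k ∈ range (N + 1), (4 * (k : ℚ) - 1) ^ m * (rise (-1 / 2) k ^ 4 / (k.factorial : ℚ) ^ 4)

/-- `x ≡ y (mod p^n)` for rational numbers. -/
def Cong (p n : ℕ) (x y : ℚ) : Prop :=
  ∃ u v : ℤ, ¬ (p : ℤ) ∣ v ∧ x - y = (p : ℚ) ^ n * (u / v)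

/-- the first congruence of the problem -/
def First (m : ℕ) (d : ℤ) (p r : ℕ) : Prop :=
  Cong p (r + 3) (S m ((p ^ r + 1) / 2)) (d * (p : ℚ) ^ r)

/-- the second congruence of the problem -/
def Second (m : ℕ) (d : ℤ) (p r : ℕ) : Prop :=
  Cong p (r + 3) (S m (p ^ r - 1)) (d * (p : ℚ) ^ r)

theorem S3 : S 15 3 = ((1088836589217862400 : ℤ) : ℚ) / 256 ^ 3 := by
  norm_num [S, rise, sum_range_succ, prod_range_succ, Nat.factorial]

theorem S4 : S 15 4 = ((4657681070648366524400 : ℤ) : ℚ) / 256 ^ 4 := by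
  norm_num [S, rise, sum_range_succ, prod_range_succ, Nat.factorial]

theorem S13 : S 15 13 = ((2256541984403916385626134691217437689937915392000 : ℤ) : ℚ) / 256 ^ 13 := by
  norm_num [S, rise, sum_range_succ, prod_range_succ, Nat.factorial]

theorem S24 : S 15 24 = ((298452583514990012247847862274721308948623602457350869292529941613429273952000 : ℤ) : ℚ) / 256 ^ 24 := by
  norm_num [S, rise, sum_range_succ, prod_range_succ, Nat.factorial]

theorem key {r N : ℕ} {Z d : ℤ} (hS : S 15 N = (Z : ℚ) / 256 ^ N)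
    (h : Cong 5 (r + 3) (S 15 N) (d * ((5 : ℕ) : ℚ) ^ r)) :
    (5 : ℤ) ^ (r + 3) ∣ Z - d * 5 ^ r * 256 ^ N := by
  obtain ⟨u, v, hv, h⟩ := h
  have hv0 : (v : ℚ) ≠ 0 := by
    intro h0
    apply hv
    have : v = 0 := by exact_mod_cast h0
    rw [this]; exact dvd_zero _
  rw [hS] at h
  have h2 : ((v * (Z - d * 5 ^ r * 256 ^ N) : ℤ) : ℚ) = ((5 ^ (r + 3) * (u * 256 ^ N) : ℤ) : ℚ) := by
    push_cast
    push_cast at h
    have h3 : (256 : ℚ) ^ N ≠ 0 := by positivity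
    generalize (256 : ℚ) ^ N = X at *
    generalize (5 : ℚ) ^ (r + 3) = Y at *
    field_simp at h
    linear_combination h
  have h3 : v * (Z - d * 5 ^ r * 256 ^ N) = 5 ^ (r + 3) * (u * 256 ^ N) := by exact_mod_cast h2
  have hc : IsCoprime ((5 : ℤ) ^ (r + 3)) v := by
    apply IsCoprime.pow_left
    have h5 : Prime (5 : ℤ) := by norm_num
    exact (h5.coprime_iff_not_dvd).2 (by exact_mod_cast hv)
  exact hc.dvd_of_dvd_mul_left ⟨_, h3⟩

theorem first_fails (d : ℤ) : ¬ (First 15 d 5 1 ∧ First 15 d 5 2) := by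
  rintro ⟨h1, h2⟩
  have e1 := key (r := 1) S3 h1
  have e2 := key (r := 2) S13 h2
  norm_num at e1 e2
  omega

theorem second_fails (d : ℤ) : ¬ (Second 15 d 5 1 ∧ Second 15 d 5 2) := by
  rintro ⟨h1, h2⟩
  have e1 := key (r := 1) S4 h1
  have e2 := key (r := 2) S24 h2
  norm_num at e1 e2
  omega

/-- **Answer to Q1 (disproof)**: the conjecture is false; for `m = 15` no integer `d` satisfies the
first congruence for `p = 5` and both `r = 1, 2`, and likewise for the second congruence. -/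
theorem result :
    (¬ ∀ m : ℕ, Odd m → ∃ d : ℤ, ∀ p : ℕ, p.Prime → Odd p → ∀ r : ℕ, 1 ≤ r →
      First m d p r ∧ Second m d p r) ∧
    (∀ d : ℤ, ¬ (First 15 d 5 1 ∧ First 15 d 5 2)) ∧
    (∀ d : ℤ, ¬ (Second 15 d 5 1 ∧ Second 15 d 5 2)) := by
  refine ⟨fun h => ?_, first_fails, second_fails⟩
  obtain ⟨d, hd⟩ := h 15 (by decide)
  have h5 : Nat.Prime 5 := by norm_num
  exact first_fails d ⟨(hd 5 h5 (by decide) 1 le_rfl).1, (hd 5 h5 (by decide) 2 (by norm_num)).1⟩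

end Pool.Agent.Results.MP_270153_nt.FailsAtFive
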